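import Pool.Agent.helper26.T5.SpecB

set_option autoImplicit false

namespace Pool.Agent.helper26.T5

open NumberField Pool.Agent.helper3.FT Pool.Agent.helper47.RA Pool.Agent.T5

theorem LGA_ex {K : Type} [Field K] [NumberField K] (a : Ideal (𝓞 K)) (θ : 𝓞 K)
    (hθ : Ideal.span {θ} = a ^ 5) (α : 𝓞 K) (hα : α ∈ a ^ 2) :
    ∃ γ : 𝓞 K, γ * θ = Ideal.absNorm a * α ^ 2 := by
  have h1 : ((Ideal.absNorm a : 𝓞 K)) * α ^ 2 ∈ a ^ 5 := by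
    have h2 : α ^ 2 ∈ a ^ 4 := by
      have h3 : α ^ 2 ∈ (a ^ 2) ^ 2 := Ideal.pow_mem_pow hα 2
      rwa [← pow_mul] at h3
    have h4 : a ^ 5 = a * a ^ 4 := by ring
    rw [h4]
    exact Ideal.mul_mem_mul (Ideal.absNorm_mem a) h2
  rw [← hθ, Ideal.mem_span_singleton'] at h1
  exact h1

/-- ROW LGA -/
theorem lga : LGA := by
  intro K _ _ Q a θ ha hθ α hα
  refine ⟨LGA_ex a θ hθ α hα, fun γ hγ hgd q hq hdvd => ?_⟩
  have hθ0 : θ ≠ 0 := by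
    rintro rfl
    apply pow_ne_zero 5 ha
    rw [← hθ]
    simp
  have h1 : α ∈ Ideal.span {(q : 𝓞 K)} * a ^ 2 :=
    Ideal.dvd_iff_le.1 hdvd (Ideal.mem_span_singleton_self α)
  obtain ⟨β, hβ, rfl⟩ := Ideal.mem_span_singleton_mul.1 h1
  obtain ⟨γ', hγ'⟩ := LGA_ex a θ hθ β hβ
  have h2 : γ = (q : 𝓞 K) * ((q : 𝓞 K) * γ') := by
    apply mul_right_cancel₀ hθ0
    rw [hγ]
    linear_combination (-(q : 𝓞 K) ^ 2) * hγ'
  have h3 : Q.Y ((q : 𝓞 K) * β) = q * Q.Y β := by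
    have h := Q.Y_int_mul (q : ℤ) β
    push_cast at h
    exact h
  have h4 : Q.Y γ = q * Q.Y ((q : 𝓞 K) * γ') := by
    rw [h2]
    have h := Q.Y_int_mul (q : ℤ) ((q : 𝓞 K) * γ')
    push_cast at h
    exact h
  have h5 : q ∣ gd Q ((q : 𝓞 K) * β) γ := by
    unfold gd
    rw [← Int.natCast_dvd_natCast]
    exact Int.dvd_coe_gcd (h3 ▸ Dvd.intro _ rfl) (h4 ▸ Dvd.intro _ rfl)
  rw [hgd] at h5
  exact hq.one_lt.ne' (Nat.dvd_one.1 h5)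

end Pool.Agent.helper26.T5
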