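import Pool.Agent.helper26.T5.SpecA

set_option autoImplicit false

namespace Pool.Agent.helper26.T5

open MeasureTheory

theorem LQ1_one (p : ℕ) (hp : p.Prime) (n c : ℤ) (hn : ¬ (p : ℤ) ∣ n) :
    ((Finset.range p).filter (fun x : ℕ => ¬ (p : ℤ) ∣ n * x + c)).card = p - 1 := by
  have hpp : Prime (p : ℤ) := Nat.prime_iff_prime_int.1 hp
  have hp0 : 0 < p := hp.pos
  have hco : IsCoprime n (p : ℤ) := ((hpp.coprime_iff_not_dvd).2 hn).symm
  obtain ⟨u, v, huv⟩ := hco
  -- the root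
  have hr0 : 0 ≤ (-(u * c)) % (p : ℤ) := Int.emod_nonneg _ (by exact_mod_cast hp0.ne')
  have hr1 : (-(u * c)) % (p : ℤ) < p := Int.emod_lt_of_pos _ (by exact_mod_cast hp0)
  obtain ⟨r, hr⟩ := Int.eq_ofNat_of_zero_le hr0
  have hrp : r < p := by
    rw [hr] at hr1
    exact_mod_cast hr1
  have hroot : (p : ℤ) ∣ n * (r : ℤ) + c := by
    have h1 : (-(u * c)) = (p : ℤ) * ((-(u * c)) / (p : ℤ)) + (r : ℤ) := by
      have h2 := Int.mul_ediv_add_emod (-(u * c)) (p : ℤ)
      rw [hr] at h2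
      exact h2.symm
    refine ⟨v * c - n * ((-(u * c)) / (p : ℤ)), ?_⟩
    linear_combination (-n) * h1 + (-c) * huv
  have hset : (Finset.range p).filter (fun x : ℕ => ¬ (p : ℤ) ∣ n * x + c) =
      (Finset.range p).erase r := by
    ext x
    simp only [Finset.mem_filter, Finset.mem_range, Finset.mem_erase]
    constructor
    · rintro ⟨h1, h2⟩
      refine ⟨?_, h1⟩
      rintro rfl
      exact h2 hroot
    · rintro ⟨h1, h2⟩
      refine ⟨h2, fun h3 => h1 ?_⟩
      have h4 : (p : ℤ) ∣ n * ((x : ℤ) - r) := by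
        have h5 := dvd_sub h3 hroot
        have h6 : n * (x : ℤ) + c - (n * (r : ℤ) + c) = n * ((x : ℤ) - r) := by ring
        rwa [h6] at h5
      have h7 : (p : ℤ) ∣ (x : ℤ) - r := (hpp.dvd_or_dvd h4).resolve_left hn
      have h8 : ((x : ℤ) - r) = 0 := by
        apply Int.eq_zero_of_abs_lt_dvd h7
        rw [abs_lt]
        constructor <;> omega
      omega
  rw [hset, Finset.card_erase_of_mem (Finset.mem_range.2 hrp), Finset.card_range]

/-- ROW LQ1 -/
theorem lq1 : LQ1 := by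
  intro p hp n₁ n₂ hn
  have hpp : p * (p - 1) = p ^ 2 - p := by
    rw [Nat.mul_sub_one, pow_two]
  by_cases h1 : (p : ℤ) ∣ n₁
  · have h2 : ¬ (p : ℤ) ∣ n₂ := fun h => hn ⟨h1, h⟩
    unfold sq
    rw [Finset.card_filter, Finset.sum_product]
    have h3 : ∀ x ∈ Finset.range p, (∑ y ∈ Finset.range p,
        if ¬ (p : ℤ) ∣ n₁ * (((x, y) : ℕ × ℕ).1 : ℤ) + n₂ * (((x, y) : ℕ × ℕ).2 : ℤ) then 1 else 0) = p - 1 := by
      intro x _
      rw [← LQ1_one p hp n₂ (n₁ * x) h2, Finset.card_filter]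
      refine Finset.sum_congr rfl fun y _ => ?_
      rw [add_comm]
    rw [Finset.sum_congr rfl h3, Finset.sum_const, Finset.card_range, smul_eq_mul, hpp]
  · unfold sq
    rw [Finset.card_filter, Finset.sum_product_right]
    have h3 : ∀ y ∈ Finset.range p, (∑ x ∈ Finset.range p,
        if ¬ (p : ℤ) ∣ n₁ * (((x, y) : ℕ × ℕ).1 : ℤ) + n₂ * (((x, y) : ℕ × ℕ).2 : ℤ) then 1 else 0) = p - 1 := by
      intro y _
      rw [← LQ1_one p hp n₁ (n₂ * y) h1, Finset.card_filter]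
    rw [Finset.sum_congr rfl h3, Finset.sum_const, Finset.card_range, smul_eq_mul, hpp]

end Pool.Agent.helper26.T5
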