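import Pool.Agent.helper8.T5.SpecU

/-!
# Project T5 (MP_16912e_nt), row UU1: the bound for `Y ≤ N^(1/2 - δ)`
-/

set_option autoImplicit false

namespace Pool.Agent.T5

open Finset NumberField Pool.Agent.helper3.FT Pool.Agent.helper47.RA

/-- with `B = 4 √N` all ideals are exceptional -/
theorem UU1_ex (hUMK : UMK_stmt) (N Y : ℝ) (D : ℤ) (Φ : Fld D)
    (h1 : N / 2 < -(D : ℝ)) (h2 : -(D : ℝ) ≤ N) :
    IA Φ.K Y = EX Φ.Q Y (4 * √N) := by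
  have hD : (Φ.Q.D : ℝ) = D := by rw [Φ.hD]
  have hneg : Φ.Q.D < 0 := by
    have h3 : (Φ.Q.D : ℝ) < 0 := by rw [hD]; linarith
    exact_mod_cast h3
  ext a
  constructor
  · intro ha
    refine ⟨ha, ?_⟩
    obtain ⟨α, h4, h5, h6⟩ := hUMK Φ.K Φ.Q hneg a ha.1
    refine ⟨α, h4, h5, h6.trans ?_⟩
    have h7 : √(-(Φ.Q.D : ℝ)) ≤ √N := Real.sqrt_le_sqrt (by rw [hD]; exact h2)
    have h8 : (0 : ℝ) ≤ (Ideal.absNorm a : ℝ) ^ 2 := by positivity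
    exact mul_le_mul_of_nonneg_left (by linarith) h8
  · intro ha
    exact ha.1

theorem UU1_rpow (Y : ℝ) (hY : 1 ≤ Y) : Y ^ (5 / 2 : ℝ) = Y ^ 2 * √Y := by
  have h0 : 0 < Y := by linarith
  rw [Real.sqrt_eq_rpow, ← Real.rpow_natCast, ← Real.rpow_add h0]
  norm_num

/-- UU1. The bound for `Y ≤ N^(1/2 - δ)`. -/
theorem UU1 (hUE1 : UE1_stmt) (hUM : UM_stmt) (hUMK : UMK_stmt) : UU1_stmt := by
  intro δ hδ hδ1 ε hε
  obtain ⟨C1, hC1, h1⟩ := hUE1 ε hε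
  obtain ⟨c, hc, hUM'⟩ := hUM δ hδ hδ1
  obtain ⟨C2, hC2, h2⟩ := hUM' ε hε
  -- the threshold
  obtain ⟨N1, hN1⟩ : ∃ N1 : ℝ, N1 = (4 : ℝ) ^ (100 / δ) := ⟨_, rfl⟩
  have hN1p : 1 ≤ N1 := by
    rw [hN1]
    exact Real.one_le_rpow (by norm_num) (by positivity)
  refine ⟨C1 * (2 + N1 ^ (5 / 2 : ℝ)) + C2 * 5, ?_, ?_⟩
  · have h3 : (0 : ℝ) ≤ N1 ^ (5 / 2 : ℝ) := Real.rpow_nonneg (by linarith) _
    have h4 : 1 * 1 ≤ C1 * (2 + N1 ^ (5 / 2 : ℝ)) := mul_le_mul hC1 (by linarith) (by norm_num) (by linarith)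
    linarith
  intro N Y hN hY hYN s Φ hs
  have hN0 : 0 < N := by linarith
  have hY0 : 0 < Y := by linarith
  have hYN' : Y ≤ N := by
    refine hYN.trans ?_
    calc N ^ (1 / 2 - δ) ≤ N ^ (1 : ℝ) := Real.rpow_le_rpow_of_exponent_le hN (by linarith)
      _ = N := Real.rpow_one N
  have hsN : 0 < √N := Real.sqrt_pos.2 hN0
  have hsN2 : √N * √N = N := Real.mul_self_sqrt hN0.le
  have hNe : 1 ≤ N ^ ε := Real.one_le_rpow hN hε.le
  have hYe : Y ^ ε ≤ N ^ ε := Real.rpow_le_rpow hY0.le hYN' hε.le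
  have hN1n : (0 : ℝ) ≤ N1 ^ (5 / 2 : ℝ) := Real.rpow_nonneg (by linarith) _
  have hYs : 0 < Y * √N := by positivity
  -- the elementary bound, general form: `Y ^ (5 / 2) ≤ A N`
  have hel : ∀ A : ℝ, 0 ≤ A → A ≤ 1 + N1 ^ (5 / 2 : ℝ) → Y ^ 2 * √Y ≤ A * N →
      (∑ D : s, ((IA (Φ D).K Y).ncard : ℝ)) ≤
        (C1 * (2 + N1 ^ (5 / 2 : ℝ)) + C2 * 5) * N ^ ε * (Y * √N) := by
    intro A hA hA1 h3
    have h4 := h1 N Y hN hY s Φ hs
    refine h4.trans ?_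
    have h5 : Y ^ 3 * √Y / √N ≤ A * (Y * √N) := by
      rw [div_le_iff₀ hsN]
      calc Y ^ 3 * √Y = Y * (Y ^ 2 * √Y) := by ring
        _ ≤ Y * (A * N) := mul_le_mul_of_nonneg_left h3 hY0.le
        _ = A * (Y * √N) * √N := by rw [mul_assoc A, mul_assoc Y, hsN2]; ring
    have h6 : Y * √N + Y ^ 3 * √Y / √N ≤ (2 + N1 ^ (5 / 2 : ℝ)) * (Y * √N) := by
      have h7 : A * (Y * √N) ≤ (1 + N1 ^ (5 / 2 : ℝ)) * (Y * √N) :=
        mul_le_mul_of_nonneg_right hA1 hYs.le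
      linarith
    calc C1 * Y ^ ε * (Y * √N + Y ^ 3 * √Y / √N)
        ≤ C1 * N ^ ε * ((2 + N1 ^ (5 / 2 : ℝ)) * (Y * √N)) := by
          refine mul_le_mul (mul_le_mul_of_nonneg_left hYe (by linarith)) h6 (by positivity) ?_
          exact mul_nonneg (by linarith) (by linarith)
      _ = (C1 * (2 + N1 ^ (5 / 2 : ℝ))) * N ^ ε * (Y * √N) := by ring
      _ ≤ (C1 * (2 + N1 ^ (5 / 2 : ℝ)) + C2 * 5) * N ^ ε * (Y * √N) := by
          refine mul_le_mul_of_nonneg_right (mul_le_mul_of_nonneg_right ?_ (by linarith)) hYs.le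
          linarith
  by_cases hc1 : Y ^ 2 * √Y ≤ N
  · exact hel 1 (by norm_num) (by linarith) (by linarith)
  push Not at hc1
  by_cases hc2 : 4 * √N ≤ N ^ (1 / 2 + δ / 100)
  · -- UM
    have h38 : N ^ (0.38 : ℝ) ≤ Y := by
      have h3 : N ≤ Y ^ (5 / 2 : ℝ) := by
        rw [UU1_rpow Y hY]
        exact hc1.le
      calc N ^ (0.38 : ℝ) ≤ (Y ^ (5 / 2 : ℝ)) ^ (0.38 : ℝ) := Real.rpow_le_rpow hN0.le h3 (by norm_num)
        _ = Y ^ ((5 / 2 : ℝ) * 0.38) := by rw [← Real.rpow_mul hY0.le]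
        _ ≤ Y ^ (1 : ℝ) := Real.rpow_le_rpow_of_exponent_le hY (by norm_num)
        _ = Y := Real.rpow_one Y
    have hs1 : 1 ≤ √N := by
      rw [Real.one_le_sqrt]
      exact hN
    have h4 := h2 N Y (4 * √N) hN h38 hYN (by linarith) hc2 s Φ hs
    have h5 : (∑ D : s, ((IA (Φ D).K Y).ncard : ℝ)) =
        ∑ D : s, ((EX (Φ D).Q Y (4 * √N)).ncard : ℝ) := by
      refine Finset.sum_congr rfl fun D _ => ?_
      rw [UU1_ex hUMK N Y D.1 (Φ D) (hs D.1 D.2).1 (hs D.1 D.2).2]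
    rw [h5]
    refine h4.trans ?_
    have h6 : N ^ (1 / 2 - c) ≤ √N := by
      rw [Real.sqrt_eq_rpow]
      exact Real.rpow_le_rpow_of_exponent_le hN (by linarith)
    have h7 : Y * (4 * √N) + Y * N ^ (1 / 2 - c) ≤ 5 * (Y * √N) := by
      have h8 := mul_le_mul_of_nonneg_left h6 hY0.le
      linarith
    calc C2 * N ^ ε * (Y * (4 * √N) + Y * N ^ (1 / 2 - c))
        ≤ C2 * N ^ ε * (5 * (Y * √N)) :=
          mul_le_mul_of_nonneg_left h7 (mul_nonneg (by linarith) (by linarith))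
      _ = C2 * 5 * N ^ ε * (Y * √N) := by ring
      _ ≤ (C1 * (2 + N1 ^ (5 / 2 : ℝ)) + C2 * 5) * N ^ ε * (Y * √N) := by
          refine mul_le_mul_of_nonneg_right (mul_le_mul_of_nonneg_right ?_ (by linarith)) hYs.le
          have h9 : 0 ≤ C1 * (2 + N1 ^ (5 / 2 : ℝ)) := mul_nonneg (by linarith) (by linarith)
          linarith
  · -- `N ≤ N1`
    push Not at hc2
    have h3 : N ^ (δ / 100) ≤ 4 := by
      rw [Real.rpow_add hN0, ← Real.sqrt_eq_rpow, mul_comm] at hc2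
      exact (lt_of_mul_lt_mul_right hc2 hsN.le).le
    have h4 : N ≤ N1 := by
      have h5 : (N ^ (δ / 100)) ^ (100 / δ) ≤ (4 : ℝ) ^ (100 / δ) :=
        Real.rpow_le_rpow (Real.rpow_nonneg hN0.le _) h3 (by positivity)
      rw [← Real.rpow_mul hN0.le] at h5
      have h6 : δ / 100 * (100 / δ) = 1 := by
        field_simp
      rw [h6, Real.rpow_one] at h5
      rw [hN1]
      exact h5
    refine hel (N1 ^ (5 / 2 : ℝ)) hN1n (by linarith) ?_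
    rw [← UU1_rpow Y hY]
    have h5 : Y ^ (5 / 2 : ℝ) ≤ N1 ^ (5 / 2 : ℝ) :=
      Real.rpow_le_rpow hY0.le (hYN'.trans h4) (by norm_num)
    calc Y ^ (5 / 2 : ℝ) ≤ N1 ^ (5 / 2 : ℝ) * 1 := by rw [mul_one]; exact h5
      _ ≤ N1 ^ (5 / 2 : ℝ) * N := mul_le_mul_of_nonneg_left hN hN1n

end Pool.Agent.T5
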